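import Mathlib
import Pool.Agent.H68K.PR.Fin8

/-!
# The law of Poonen and Rains for the `2`-Selmer groups, up to `ε` in total variation, in large families of
elliptic curves over every number field

Let `F` be a number field. The curves `E_{a,b} : y² = x³ + a x + b` with `a, b ∈ 𝓞 F` and
`4 a³ + 27 b² ≠ 0` are ordered by the height `H (a, b) = max_v max (|a|_v³, |b|_v²)` with the normalized
absolute values of the infinite places `v` of `F`. `Sel2 W` is the `2`-Selmer group of the curve `W`, the
set of the classes of the continuous cocycles of the absolute Galois group of `F` with values in `W[2]`,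
modulo the coboundaries of the points of `W[2]`, which are trivial in `H¹(F_v, W)` at all places `v`.

The constants of Poonen and Rains are
`C_{2,k} = ∏_{j ≥ 0} (1 + 2^{-j})^{-1} ∏_{1 ≤ i ≤ k} 2 / (2^i - 1)`.

**Theorem.** Let `F` be a number field and `ε > 0`. There is a family of pairs `(a, b)`, given by
congruences modulo some `M` and by the condition that `4 a³ + 27 b²` is not divisible by the square of a
prime which does not divide `M`, with the following properties. All its members are minimal equations: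
there is no prime `v` with `v⁴ ∣ a` and `v⁶ ∣ b`. The family has positive lower density among all pairs.
If `Y` is large then for every set `K` of natural numbers the proportion of the members of height at most
`Y` whose `2`-Selmer group has a dimension in `K` differs from `∑_{k ∈ K} C_{2,k}` by at most `ε`.

So in these large families, ordered by height, all the predicted values of the Poonen-Rains conjecture for
`p = 2` are correct up to `ε`, uniformly for all sets of dimensions. For instance the proportion of the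
dimension `0` is `0.2097... ± ε`, the proportion of even dimensions is `1/2 ± ε`, and the proportion of
dimensions `≥ k` is at most `2^{-k(k-1)/2} + ε`. For the family of all curves only the
average of the orders of the Selmer groups is known (Bhargava-Shankar over `ℚ`).

Idea of the proof. Let `Q` be a large number, and let `S` and `R` be sets of primes `1` modulo `8` in
`[Q, (1 + η) Q]` and `[Q², (1 + η) Q²]`. Consider the `f = x³ + a x + b` which are irreducible modulo the
primes over `2`, have a prescribed factorization into a linear and an irreducible quadratic factor modulo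
one prime of `F` over each `q ∈ S ∪ R`, are irreducible modulo the other primes over `q`, and whose
discriminant is not divisible by the square of a prime. The Selmer group relaxed at the primes of `S ∪ R`
is a maximal isotropic subspace `Λ` of an orthogonal sum of hyperbolic planes over the field with two
elements, and the Selmer group of the twist by `∏_{q ∈ J} q` is the intersection `Λ_J` of `Λ` with a
product of lines which depends on `J`. A counting of pairs of symmetric matrices over `𝓞 F`, after
Bhargava and Gross, which are distinguished at some primes and not distinguished at others, shows that for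
most `f` all the nonzero elements of `Λ_J`, `J` small, are trivial at about half of the primes of `S`. So
the dimensions of the twists by random products of primes of `S` form approximately a Markov chain, which
goes from `k` to `k + 1` with probability `2^{-k}` and to `k - 1` with probability `1 - 2^{-k}`, and which
converges to the law of Poonen and Rains, given the parity. The parity is the one of `t + i`, where `t` is
the dimension for `f` and `i` the number of the primes. The law without condition on the parity is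
obtained by the following trick: the products of `m + 2` primes of `S`, and the products of `m` primes of
`S` and one prime of `R`, all are equal to `Q^{m+2}` up to a factor near to `1`, so that the heights of all
these twists of `f` are nearly the same, but the numbers `m + 2` and `m + 1` of the primes have different
parities. The sizes of `S` and `R` are chosen such that there are equally many products of both types. The
family consists of all these twists. The error made by the different heights is bounded by counting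
lattice points in thin shells. The primes in `S` and `R` exist by the prime number theorem in arithmetic
progressions.

Built on project PF of the starting library (helper783 and the seats named there) and on the parts of
project PR by helper10, helper18, helper33, helper42, helper64, helper71, helper72, helper93 and
helper68.
-/

set_option autoImplicit false

namespace Pool.Agent.Results.MP_8cb858_nt.LargeFamilyLaw

open NumberField IsDedekindDomain
open Pool.Agent.TH115.GD (Pt act rs IsCoc LocTriv Comp Sep)
open scoped Classical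

section selmer

variable {F : Type} [Field F] [NumberField F]

/-- The curve `y² = x³ + a x + b`. -/
def curve (a b : F) : WeierstrassCurve F := ⟨0, 0, 0, a, b⟩

/-- The Selmer cocycles: the continuous cocycles `f` of the absolute Galois group of `F` with values in
the points of order two of `W` over a separable closure, which become coboundaries in the points of `W`
over a separable closure of `F_v`, for all finite and all real places `v` of `F` (at complex places the
condition is empty). -/
structure IsSelmer (W : WeierstrassCurve F) (f : (Sep F ≃ₐ[F] Sep F) → Pt W (Sep F)) : Prop where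
  cocycle : IsCoc W f
  two : ∀ σ, (2 : ℕ) • f σ = 0
  finite : ∀ v : HeightOneSpectrum (𝓞 F), LocTriv W (Comp (𝓞 F) F v) (Sep (Comp (𝓞 F) F v)) f
  real : ∀ ρ : F →+* ℝ, letI := ρ.toAlgebra; LocTriv W ℝ (Sep ℝ) f

/-- The difference of `f'` and `f` is the coboundary of a point of order two of `W`. -/
def Cohomologous (W : WeierstrassCurve F) (f f' : (Sep F ≃ₐ[F] Sep F) → Pt W (Sep F)) : Prop :=
  ∃ T : Pt W (Sep F), (2 : ℕ) • T = 0 ∧ ∀ σ, f' σ = f σ + (act W (rs F σ) T - T)

/-- The `2`-Selmer group of `W` over `F`, the kernel of `H¹(F, W[2]) → ∏_v H¹(F_v, W)`: the Selmer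
cocycles modulo the coboundaries of the points of order two. -/
def Sel2 (W : WeierstrassCurve F) : Type :=
  Quot fun f f' : {f : (Sep F ≃ₐ[F] Sep F) → Pt W (Sep F) // IsSelmer W f} =>
    Cohomologous W f.1 f'.1

/-- The order of the `2`-Selmer group of `y² = x³ + a x + b`. -/
noncomputable def selmer (p : 𝓞 F × 𝓞 F) : ℕ := Nat.card (Sel2 (curve (p.1 : F) (p.2 : F)))

/-- The height of a pair: the maximum of `|a|_v³` and `|b|_v²`, for the normalized absolute values
`|x|_v = v x ^ v.mult` of the infinite places `v` of `F`. -/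
noncomputable def height (p : 𝓞 F × 𝓞 F) : ℝ :=
  ⨆ v : InfinitePlace F, max ((v (p.1 : F) ^ v.mult) ^ 3) ((v (p.2 : F) ^ v.mult) ^ 2)

/-- `R` is a union of residue classes modulo `M`. -/
def Periodic (M : ℕ) (R : Set (𝓞 F × 𝓞 F)) : Prop :=
  ∀ p p' : 𝓞 F × 𝓞 F, p ∈ R → (M : 𝓞 F) ∣ p'.1 - p.1 → (M : 𝓞 F) ∣ p'.2 - p.2 → p' ∈ R

/-- The family given by `M` and `R`: the pairs `(a, b)` in `R` with `4 a³ + 27 b² ≠ 0` such that
`4 a³ + 27 b²` is not divisible by the square of a prime which does not divide `M`. -/
def Family (M : ℕ) (R : Set (𝓞 F × 𝓞 F)) : Set (𝓞 F × 𝓞 F) :=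
  {p | p ∈ R ∧ 4 * p.1 ^ 3 + 27 * p.2 ^ 2 ≠ 0 ∧
    ∀ v : HeightOneSpectrum (𝓞 F), (M : 𝓞 F) ∉ v.asIdeal →
      4 * p.1 ^ 3 + 27 * p.2 ^ 2 ∉ v.asIdeal ^ 2}

/-- The equation is minimal: there is no prime `v` with `v⁴ ∣ a` and `v⁶ ∣ b`. -/
def Minimal (p : 𝓞 F × 𝓞 F) : Prop :=
  ∀ v : HeightOneSpectrum (𝓞 F), ¬ (p.1 ∈ v.asIdeal ^ 4 ∧ p.2 ∈ v.asIdeal ^ 6)

end selmer

/-- The constant `C_{2,k}` of Poonen and Rains. -/
noncomputable def poonenRains (k : ℕ) : ℝ :=
  (∏' j : ℕ, (1 + (2 : ℝ)⁻¹ ^ j)⁻¹) * ∏ i ∈ Finset.range k, (2 / ((2 : ℝ) ^ (i + 1) - 1))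

/-- The pairs `(a, b)` of elements of `𝓞 F` with `4 a³ + 27 b² ≠ 0` of height at most `Y`. -/
def Pairs (F : Type) [Field F] [NumberField F] (Y : ℝ) : Set (𝓞 F × 𝓞 F) :=
  {p | height p ≤ Y ∧ 4 * p.1 ^ 3 + 27 * p.2 ^ 2 ≠ 0}

theorem height_le {F : Type} [Field F] [NumberField F] (Y : ℝ) (p : 𝓞 F × 𝓞 F) :
    height p ≤ Y ↔ Pool.Agent.H68K.PR.Hle Y p := by
  rw [height, ciSup_le_iff (Set.finite_range _).bddAbove]
  exact forall_congr' fun v => max_le_iff

theorem sel2_eq {F : Type} [Field F] [NumberField F] (a b : F) :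
    Nat.card (Sel2 (curve a b)) =
      Nat.card (Pool.Agent.H68K.PR.Sel2 (Pool.Agent.N874.PP.sW a b)) := by
  have h0 : ∀ f f' : (Sep F ≃ₐ[F] Sep F) → Pt (curve a b) (Sep F),
      (QuotientAddGroup.mk f : _ ⧸ Pool.Agent.H68K.PR.Cob (curve a b)) = QuotientAddGroup.mk f' ↔
        Cohomologous (curve a b) f f' := by
    intro f f'
    rw [QuotientAddGroup.eq]
    constructor
    · rintro ⟨T, hT, h⟩
      refine ⟨T, hT, fun σ => ?_⟩
      have := h σ
      rw [Pi.add_apply, Pi.neg_apply] at this
      rw [← this]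
      abel
    · rintro ⟨T, hT, h⟩
      refine ⟨T, hT, fun σ => ?_⟩
      rw [Pi.add_apply, Pi.neg_apply, h σ]
      abel
  refine Nat.card_congr (Equiv.ofBijective (Quot.lift (fun f => ⟨QuotientAddGroup.mk f.1,
    ⟨f.1, f.2.cocycle, f.2.two, ⟨f.2.finite, f.2.real⟩, rfl⟩⟩) ?_) ⟨?_, ?_⟩)
  · intro f f' h
    exact Subtype.ext ((h0 f.1 f'.1).2 h)
  · intro x y
    induction x using Quot.ind with | _ f => ?_
    induction y using Quot.ind with | _ f' => ?_
    intro h
    exact Quot.sound ((h0 f.1 f'.1).1 (congrArg Subtype.val h))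
  · rintro ⟨x, f, h1, h2, h3, rfl⟩
    exact ⟨Quot.mk _ ⟨f, h1, h2, h3.fin, h3.real⟩, rfl⟩

theorem selmer_eq {F : Type} [Field F] [NumberField F] {k : ℕ} {p : 𝓞 F × 𝓞 F}
    (h : Pool.Agent.H68K.PR.Gd (2 ^ k) p) : selmer p = 2 ^ k := by
  rw [selmer, sel2_eq]
  exact Pool.Agent.H68K.PR.selP_of Pool.Agent.H42PR.coc h

/-- The law of Poonen and Rains up to `ε` in total variation in a large family of minimal equations, over
every number field. -/
theorem result (F : Type) [Field F] [NumberField F] (ε : ℝ) (hε : 0 < ε) :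
    ∃ (M : ℕ) (R : Set (𝓞 F × 𝓞 F)), 0 < M ∧ Periodic M R ∧ (∀ p ∈ Family M R, Minimal p) ∧
      ∃ c : ℝ, 0 < c ∧ ∃ Y₀ : ℝ, ∀ Y : ℝ, (Pairs F Y).Finite ∧ (Y₀ ≤ Y →
        0 < (Pairs F Y).ncard ∧
        c * ((Pairs F Y).ncard : ℝ) ≤ ((Pairs F Y ∩ Family M R).ncard : ℝ) ∧
        ∀ K : Set ℕ, |({p ∈ Pairs F Y ∩ Family M R | ∃ k ∈ K, selmer p = 2 ^ k}.ncard : ℝ) -
            (∑' k : K, poonenRains k) * ((Pairs F Y ∩ Family M R).ncard : ℝ)| ≤
          ε * ((Pairs F Y ∩ Family M R).ncard : ℝ)) := by
  obtain ⟨M, R, hM, hR, h⟩ := Pool.Agent.H68K.PR.fin8T F ε hε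
  obtain ⟨G, hG⟩ : ∃ G : Set (𝓞 F × 𝓞 F), G = {p | p ∈ R ∧ ∀ 𝔭 : Ideal (𝓞 F), 𝔭.IsPrime →
    (M : 𝓞 F) ∉ 𝔭 → 4 * p.1 ^ 3 + 27 * p.2 ^ 2 ∉ 𝔭 ^ 2} := ⟨_, rfl⟩
  obtain ⟨hmin, c, Y₀, hc, h⟩ := h G hG
  have hM0 : (M : 𝓞 F) ≠ 0 := by exact_mod_cast hM.ne'
  have hFG : Family M R = G := by
    rw [hG]
    refine Set.ext fun p => ?_
    constructor
    · rintro ⟨a1, a2, a3⟩
      refine ⟨a1, fun 𝔭 h𝔭 hM𝔭 => ?_⟩
      by_cases h0 : 𝔭 = ⊥
      · subst h0
        intro h1
        exact a2 ((Ideal.mem_bot).1 (Ideal.pow_le_self two_ne_zero h1))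
      · exact a3 ⟨𝔭, h𝔭, h0⟩ hM𝔭
    · rintro ⟨a1, a2⟩
      refine ⟨a1, fun h0 => ?_, fun v hv => a2 v.asIdeal v.isPrime hv⟩
      refine a2 ⊥ Ideal.isPrime_bot (fun h1 => hM0 ((Ideal.mem_bot).1 h1)) ?_
      rw [h0]
      exact zero_mem _
  have hGd : ∀ p ∈ G, 4 * p.1 ^ 3 + 27 * p.2 ^ 2 ≠ 0 := by
    intro p hp
    rw [← hFG] at hp
    exact hp.2.1
  refine ⟨M, R, hM, ?_, ?_, c, hc, Y₀, fun Y => ⟨?_, fun hY => ?_⟩⟩
  · intro p p' hp h1 h2
    exact hR p p' hp (Ideal.mem_span_singleton.2 h1) (Ideal.mem_span_singleton.2 h2)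
  · intro p hp v
    rw [hFG] at hp
    exact hmin p hp v.asIdeal v.isPrime v.ne_bot
  · exact (h Y).1.subset fun p hp => (height_le Y p).1 hp.1
  · obtain ⟨h1, h2, h3⟩ := (h Y).2 hY
    have e1 : Pairs F Y =
        {p : 𝓞 F × 𝓞 F | Pool.Agent.H68K.PR.Hle Y p ∧ 4 * p.1 ^ 3 + 27 * p.2 ^ 2 ≠ 0} := by
      refine Set.ext fun p => ?_
      rw [Pairs, Set.mem_ofPred_eq, Set.mem_ofPred_eq, height_le]
    have e2 : Pairs F Y ∩ Family M R = {p : 𝓞 F × 𝓞 F | Pool.Agent.H68K.PR.Hle Y p ∧ p ∈ G} := by
      rw [hFG]
      refine Set.ext fun p => ?_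
      constructor
      · rintro ⟨a1, a2⟩
        exact ⟨(height_le Y p).1 a1.1, a2⟩
      · rintro ⟨a1, a2⟩
        exact ⟨⟨(height_le Y p).2 a1, hGd p a2⟩, a2⟩
    rw [e2, e1]
    refine ⟨h1, h2, fun K => ?_⟩
    have hfin : {p : 𝓞 F × 𝓞 F | Pool.Agent.H68K.PR.Hle Y p ∧ p ∈ G}.Finite :=
      (h Y).1.subset fun p hp => hp.1
    refine Pool.Agent.H68K.PR.sandwich _ hfin
      (fun k p => Pool.Agent.H68K.PR.Gd (2 ^ k) p) ε (fun K' => ?_) K
      {p | ∃ k ∈ K, selmer p = 2 ^ k} ?_ ?_
    · refine le_trans (le_of_eq ?_) (h3 K')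
      congr 4
      refine Set.ext fun p => ?_
      exact and_assoc
    · rintro p - ⟨k, hk, h4⟩
      exact ⟨k, hk, selmer_eq h4⟩
    · rintro p - ⟨k, hk, h4⟩ ⟨l, hl, h5⟩
      rw [selmer_eq h4] at h5
      exact hk ((Nat.pow_right_injective le_rfl h5) ▸ hl)

end Pool.Agent.Results.MP_8cb858_nt.LargeFamilyLaw
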