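import Pool.Agent.H18N.Near
import Pool.Agent.H18N.All
import Pool.Agent.H18N.CLSX
import Pool.Agent.H18G.SELJ

/-!
# Near every elliptic curve, and near every hyperelliptic curve with a rational Weierstrass point at
# infinity, over every number field: the bounds of Poonen and Rains for the `2`-Selmer groups, up to `ε`,
# over infinitely many fields at once

Let `F` be a number field and `g ≥ 1`. We consider the curves `C_f : y² = f(x)` of genus `g` over `F`, `f`
monic of degree `2 g + 1` with coefficients `a_j` in `𝓞 F` and `a_{2 g} = 0`, ordered by the height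
`max_{σ, j} |σ a_j|^{1 / (2 g + 1 - j)}`. For `g = 1` these are the elliptic curves `y² = x³ + a x + b`
over `F`. `Sel2 f K` is the `2`-Selmer group of the Jacobian `J` of `C_f` over an extension `K` of `F`: the
set of the classes of the continuous cocycles of the absolute Galois group of `K` with values in `J[2]`,
modulo the coboundaries of the elements of `J[2]`, which are trivial in `H¹(K_v, J)` for all places `v` of
`K`. For `g = 1` this is the `2`-Selmer group of the elliptic curve.

The constants of Poonen and Rains are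
`C_{2,k} = ∏_{j ≥ 0} (1 + 2^{-j})^{-1} ∏_{1 ≤ i ≤ k} 2 / (2^i - 1)`.

**Theorem.** Let `n ≥ 1` and let `f₀` be the equation of any curve as above, which is minimal at the primes
dividing `n` (the reduction of the curve at these primes, also at the primes over `2`, is arbitrary), and
let `ε > 0`. There is a family of equations `f` which are congruent to `f₀` modulo `n`, given by
congruences modulo some `M` and by the condition that the discriminant is not divisible by the square of a
prime which does not divide `M`, with the following properties. All its members are minimal equations. The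
family has positive lower density among all equations. For all `k`, ordered by height, the proportion of
the members such that
`dim Sel2 f M' ≤ k [M' : F]` for ALL admissible extensions `M'` of `F` at once
is at least `C_{2,0} + ... + C_{2,k} - ε`. Here `M' / F` is admissible if it is Galois of 2-power degree,
the primes dividing `M` and the real places split completely in `M'`, and `f` is irreducible modulo the
primes of `F` which are ramified in `M'`. `F` itself is admissible, and there are infinitely many prime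
numbers `l` such that `M'(√l)` is admissible for every admissible `M'`.

In particular the proportion of the members with `Sel2 f M' = 0` for all admissible `M'` is at least
`C_{2,0} - ε`, where `C_{2,0} = 0.2097...`, and for `M' = F` the proportion of the dimensions `≥ k` is at
most `∑_{j ≥ k} C_{2,j} + ε`, near every curve: so the upper bounds of the conjecture of Poonen and Rains
for the tails hold up to `ε` in a large subfamily of every residue class.

Idea of the proof. In the families of `LargeFamilyLaw` the places dividing two and infinity are made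
harmless by special congruence conditions. Here `f` runs through an arbitrary residue class modulo a
multiple `W` of `n`, near a polynomial `f₁` which is near `f₀` at the primes dividing `n`. The members of
the family are the twists of such polynomials, whose discriminants are squarefree outside `W`, by products
of primes `q` which are congruent to one modulo `W`, so that the twisting factor is a square at all the
places over `W`. The Selmer groups of the twists embed into the intersections of one maximal isotropic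
subspace with products of lines. For most `f` the dimensions of these intersections form approximately a
Markov chain which converges to the law of Poonen and Rains; this follows from a count of pairs of
symmetric matrices over `𝓞 F`, after Bhargava and Gross. As the primes dividing `M` and the real places
split completely in an admissible field `M'`, the group over `M'` is bounded by the one over `F`.

Built on project PF of the starting library (helper783 and the seats named there), on project PR, on the
projects JG and JN of helper18, and on the work of helpers 7, 10, 14, 19, 33, 36, 41, 42, 43, 45, 48, 54,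
57, 59, 64, 67, 69, 71, 72, 76, 83, 87, 92, 93, 94, 99 and 68.
-/

set_option autoImplicit false

namespace Pool.Agent.Results.MP_8cb858_nt.NearEveryCurve

open NumberField IsDedekindDomain Polynomial
open Pool.Agent.N874.Jac (J mapJ Cochain Cocycle TrivialAtPrimes TrivialAtReals)
open scoped Classical IntermediateField Pointwise

/-! ### The curves -/

section curves

variable {F : Type} [Field F] [NumberField F] (g : ℕ)

/-- The discriminant of the polynomial `f` of degree `2 g + 1`, up to sign: the resultant of `f` and its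
derivative. -/
noncomputable def disc (f : (𝓞 F)[X]) : 𝓞 F := f.resultant (derivative f) (2 * g + 1) (2 * g)

/-- The equations `y² = f(x)`: `f` is monic of degree `2 g + 1` with integral coefficients `a_j`,
`a_{2 g} = 0`, and its discriminant is not zero. -/
def Curves (F : Type) [Field F] [NumberField F] (g : ℕ) : Set (𝓞 F)[X] :=
  {f | f.Monic ∧ f.natDegree = 2 * g + 1 ∧ f.coeff (2 * g) = 0 ∧ disc g f ≠ 0}

/-- The equations of height at most `Y`: all the conjugates of the coefficient `a_j` are at most
`Y ^ (2 g + 1 - j)` in absolute value. -/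
def UpTo (F : Type) [Field F] [NumberField F] (g : ℕ) (Y : ℝ) : Set (𝓞 F)[X] :=
  {f ∈ Curves F g | ∀ j ≤ 2 * g, ∀ σ : F →+* ℂ,
    ‖σ ((f.coeff j : 𝓞 F) : F)‖ ≤ Y ^ (2 * g + 1 - j)}

/-- The coefficients of `f` and `f'` are congruent modulo `n`. -/
def Congruent (n : ℕ) (f f' : (𝓞 F)[X]) : Prop := ∀ j, (n : 𝓞 F) ∣ f.coeff j - f'.coeff j

/-- The equation `y² = f(x)` is not minimal at `𝔭`: the coefficient `a_j` is divisible by
`𝔭 ^ (2 (2 g + 1 - j))`, for all `j`. -/
def NotMinimalAt (𝔭 : Ideal (𝓞 F)) (f : (𝓞 F)[X]) : Prop :=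
  ∀ j ≤ 2 * g, f.coeff j ∈ 𝔭 ^ (2 * (2 * g + 1 - j))

/-- `R` is a union of residue classes modulo `M`. -/
def Periodic (M : ℕ) (R : Set (𝓞 F)[X]) : Prop := ∀ f f', f ∈ R → Congruent M f' f → f' ∈ R

/-- The family given by `M` and `R`: the equations in `R` whose discriminant is not divisible by the
square of a prime which does not divide `M`. -/
def Family (M : ℕ) (R : Set (𝓞 F)[X]) : Set (𝓞 F)[X] :=
  {f ∈ Curves F g | f ∈ R ∧
    ∀ v : HeightOneSpectrum (𝓞 F), (M : 𝓞 F) ∉ v.asIdeal → disc g f ∉ v.asIdeal ^ 2}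

end curves

/-! ### The admissible fields -/

section admissible

variable (F M' : Type) [Field F] [NumberField F] [Field M'] [NumberField M'] [Algebra F M']

/-- The extension `M'` of `F` is admissible for `M` and `f`: it is Galois of 2-power degree, the
decomposition groups of the primes dividing `M` are trivial, every embedding of `F` in `ℝ` extends to
`M'`, and `f` is irreducible modulo the primes of `F` below the primes of `M'` with nontrivial inertia
group. -/
structure Admissible (M : ℕ) (f : (𝓞 F)[X]) : Prop where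
  galois : IsGalois F M'
  degree : ∃ n : ℕ, Module.finrank F M' = 2 ^ n
  split : ∀ w : HeightOneSpectrum (𝓞 M'), (M : 𝓞 M') ∈ w.asIdeal →
    MulAction.stabilizer Gal(M'/F) w.asIdeal = ⊥
  real : ∀ σ : F →+* ℝ, ∃ ρ : M' →+* ℝ, ρ.comp (algebraMap F M') = σ
  ramified : ∀ w : HeightOneSpectrum (𝓞 M'), w.asIdeal.inertia Gal(M'/F) ≠ ⊥ →
    Irreducible (f.map (Ideal.Quotient.mk (w.under (𝓞 F)).asIdeal))

/-- The prime numbers `l` such that `M'(√l)` is admissible for every admissible field `M'`. -/
def Steps (M : ℕ) (f : (𝓞 F)[X]) : Set ℕ := {l : ℕ | l.Prime ∧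
  ∀ (M' M'' : Type) [Field M'] [NumberField M'] [Field M''] [NumberField M''] [Algebra F M']
    [Algebra M' M''] [Algebra F M''] [IsScalarTower F M' M''] (x : M''),
    x ^ 2 = (l : M'') → M'⟮x⟯ = ⊤ → Admissible F M' M f → Admissible F M'' M f}

end admissible

/-! ### The Selmer groups -/

section selmer

variable {K : Type} [Field K] [NumberField K]

/-- The Selmer cocycles: the continuous cocycles of the absolute Galois group of `K` with values in the
elements of order two of `J(K^sep)`, where `J` is the Jacobian of `y² = f(x)`, which are trivial in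
`H¹(K_v, J)` for all finite and all real places `v` of `K` (at complex places the condition is empty).
The group `J(L)` is the Picard group of `L[x, y] / (y² - f(x))`, written multiplicatively. -/
structure IsSelmer (f : K[X]) (c : Cochain f) : Prop where
  cocycle : Cocycle c
  two : ∀ σ, c σ ^ 2 = 1
  finite : TrivialAtPrimes (𝓞 K) c
  real : TrivialAtReals c

/-- The quotient of `c` and `c'` is the coboundary of an element of order two. -/
def Cohomologous (f : K[X]) (c c' : Cochain f) : Prop :=
  ∃ R : J f (SeparableClosure K), R ^ 2 = 1 ∧ ∀ σ, c σ / c' σ = mapJ f σ.toAlgHom R / R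

/-- The `2`-Selmer group of the Jacobian of `y² = f(x)`, the kernel of `H¹(K, J[2]) → ∏_v H¹(K_v, J)`: the
Selmer cocycles modulo the coboundaries of the elements of order two. -/
def Sel2 (f : K[X]) : Type :=
  Quot fun c c' : {c : Cochain f // IsSelmer f c} => Cohomologous f c.1 c'.1

end selmer

/-- The polynomial `f` over the extension `M'` of `F`. -/
noncomputable def polyOver {F : Type} [Field F] [NumberField F] (f : (𝓞 F)[X]) (M' : Type) [Field M']
    [NumberField M'] [Algebra F M'] : M'[X] :=
  (f.map (algebraMap (𝓞 F) (𝓞 M'))).map (algebraMap (𝓞 M') M')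

/-- For every admissible extension `M'` of `F` the `2`-Selmer group of the Jacobian over `M'` has at most
`2 ^ (k [M' : F])` elements, and `f` is irreducible over `M'`. -/
def Bounded {F : Type} [Field F] [NumberField F] (M k : ℕ) (f : (𝓞 F)[X]) : Prop :=
  ∀ (M' : Type) [Field M'] [NumberField M'] [Algebra F M'], Admissible F M' M f →
    Irreducible (polyOver f M') ∧ Finite (Sel2 (polyOver f M')) ∧
      Nat.card (Sel2 (polyOver f M')) ≤ 2 ^ (k * Module.finrank F M')

/-- The constant `C_{2,k}` of Poonen and Rains. -/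
noncomputable def poonenRains (k : ℕ) : ℝ :=
  (∏' j : ℕ, (1 + (2 : ℝ)⁻¹ ^ j)⁻¹) * ∏ i ∈ Finset.range k, (2 / ((2 : ℝ) ^ (i + 1) - 1))

/-! ### Comparison -/

theorem cg_iff {F : Type} [Field F] [NumberField F] (n : ℕ) (f f' : (𝓞 F)[X]) :
    Congruent n f f' ↔ Pool.Agent.N783.PF.Cg (Pool.Agent.N783.PF.sp F n) f f' :=
  forall_congr' fun _ => Ideal.mem_span_singleton.symm

theorem adm_iff (F M' : Type) [Field F] [NumberField F] [Field M'] [NumberField M'] [Algebra F M']
    (M : ℕ) (f : (𝓞 F)[X]) : Pool.Agent.H18N.AdmW F M' M f ↔ Admissible F M' M f :=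
  ⟨fun h => ⟨h.galois, h.deg, h.split, h.real, h.ram⟩,
    fun h => ⟨h.galois, h.degree, h.split, h.real, h.ramified⟩⟩

theorem adm_self (F : Type) [Field F] [NumberField F] (M : ℕ) (f : (𝓞 F)[X]) :
    Admissible F F M f := by
  have hs : Subsingleton Gal(F/F) := ⟨fun a b => by
    ext x
    have h1 := a.commutes x
    have h2 := b.commutes x
    exact h1.trans h2.symm⟩
  refine ⟨inferInstance, ⟨0, by rw [Module.finrank_self, pow_zero]⟩, fun w _ => ?_,
    fun σ => ⟨σ, by ext x; rfl⟩, fun w hw => absurd ?_ hw⟩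
  · exact Subsingleton.elim _ _
  · exact Subsingleton.elim _ _

theorem card_le {K : Type} [Field K] [NumberField K] (f : (𝓞 K)[X]) (hm : f.Monic)
    (ho : Odd f.natDegree) (hirr : Irreducible (f.map (algebraMap (𝓞 K) K))) (n : ℕ)
    (h : Pool.Agent.H18G.SelLe n f) : Finite (Sel2 (f.map (algebraMap (𝓞 K) K))) ∧
      Nat.card (Sel2 (f.map (algebraMap (𝓞 K) K))) ≤ n := by
  have key : ∀ φ : Fin (n + 1) → Sel2 (f.map (algebraMap (𝓞 K) K)), ¬ Function.Injective φ := by
    intro φ hφ
    obtain ⟨i, j, hij, hR⟩ := Pool.Agent.H18G.SELJ.t K f hm ho hirr n h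
      (fun i => (Quot.out (φ i)).1) (fun i => ⟨(Quot.out (φ i)).2.cocycle, (Quot.out (φ i)).2.two,
        (Quot.out (φ i)).2.finite, (Quot.out (φ i)).2.real⟩)
    apply hij
    apply hφ
    rw [← Quot.out_eq (φ i), ← Quot.out_eq (φ j)]
    exact Quot.sound hR
  have hfin : Finite (Sel2 (f.map (algebraMap (𝓞 K) K))) := by
    by_contra hinf
    have : Infinite (Sel2 (f.map (algebraMap (𝓞 K) K))) := not_finite_iff_infinite.1 hinf
    exact key (fun i => Infinite.natEmbedding _ i.1)
      fun a b hab => Fin.ext ((Infinite.natEmbedding _).injective hab)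
  refine ⟨hfin, ?_⟩
  by_contra hlt
  have e := (Finite.equivFin (Sel2 (f.map (algebraMap (𝓞 K) K)))).symm
  exact key (fun i => e (Fin.castLE (by omega) i))
    fun a b hab => Fin.castLE_injective _ (e.injective hab)

theorem bounded_of {F : Type} [Field F] [NumberField F] {g M k : ℕ} {f : (𝓞 F)[X]} (hm : f.Monic)
    (hd : f.natDegree = 2 * g + 1) (h : Pool.Agent.H18N.Per.BdA F M k f) : Bounded M k f := by
  intro M' _ _ _ hM'
  obtain ⟨h1, h2⟩ := h M' ((adm_iff F M' M f).2 hM')
  have h3 := card_le (f.map (algebraMap (𝓞 F) (𝓞 M'))) (hm.map _)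
    (by rw [hm.natDegree_map, hd]; exact ⟨g, rfl⟩) h1 _ h2
  exact ⟨h1, h3⟩

/-- Near every curve over every number field, in all genera, the upper bounds of Poonen and Rains for the
`2`-Selmer groups hold up to `ε` over all admissible fields at once. -/
theorem result (F : Type) [Field F] [NumberField F] (g n : ℕ) (hg : 1 ≤ g) (hn : 0 < n)
    (f₀ : (𝓞 F)[X]) (hf₀ : f₀ ∈ Curves F g)
    (hmin : ∀ 𝔭 : Ideal (𝓞 F), 𝔭.IsPrime → (n : 𝓞 F) ∈ 𝔭 → ¬ NotMinimalAt g 𝔭 f₀)
    (ε : ℝ) (hε : 0 < ε) :
    ∃ (M : ℕ) (R : Set (𝓞 F)[X]), 0 < M ∧ Periodic M R ∧ (∀ f ∈ R, Congruent n f f₀) ∧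
      (∀ f ∈ Family g M R, Admissible F F M f ∧ (Steps F M f).Infinite ∧
        ∀ 𝔭 : Ideal (𝓞 F), 𝔭.IsPrime → 𝔭 ≠ ⊥ → ¬ NotMinimalAt g 𝔭 f) ∧
      ∃ c : ℝ, 0 < c ∧ ∃ Y₀ : ℝ, ∀ Y : ℝ, (UpTo F g Y).Finite ∧ (Y₀ ≤ Y →
        0 < (UpTo F g Y ∩ Family g M R).ncard ∧
        c * ((UpTo F g Y).ncard : ℝ) ≤ ((UpTo F g Y ∩ Family g M R).ncard : ℝ) ∧
        ∀ k : ℕ, (∑ j ∈ Finset.range (k + 1), poonenRains j - ε) *
            ((UpTo F g Y ∩ Family g M R).ncard : ℝ) ≤
          ({f ∈ UpTo F g Y ∩ Family g M R | Bounded M k f}.ncard : ℝ)) := by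
  obtain ⟨hm, hd, ht, -⟩ := hf₀
  obtain ⟨M, R, hM, hR, hcg, hfam, c, Y₀, hc, h⟩ := Pool.Agent.H18N.Per.near
    Pool.Agent.H18N.famn Pool.Agent.H18N.CLSX.t Pool.Agent.H18N.admw Pool.Agent.H18N.stepw g F hg n hn
    f₀ hm hd ht hmin ε hε
  have hFi : ∀ f, f ∈ Family g M R ↔ Pool.Agent.H18N.Per.InFm g M R f := fun f =>
    ⟨fun ⟨⟨a1, a2, a3, a4⟩, a5, a6⟩ => ⟨a1, a2, a3, a5, a4, a6⟩,
      fun a => ⟨⟨a.mon, a.deg, a.tr, a.ne⟩, a.mem, a.sqf⟩⟩
  have hHi : ∀ Y f, f ∈ UpTo F g Y ↔ Pool.Agent.H18G.HtR g Y f ∧ disc g f ≠ 0 := fun Y f =>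
    ⟨fun ⟨⟨a1, a2, a3, a4⟩, a5⟩ => ⟨⟨a1, a2, a3, a5⟩, a4⟩,
      fun ⟨a, b⟩ => ⟨⟨a.mon, a.deg, a.tr, b⟩, a.ht⟩⟩
  have hset : ∀ Y, UpTo F g Y ∩ Family g M R =
      {f : (𝓞 F)[X] | Pool.Agent.H18G.HtR g Y f ∧ Pool.Agent.H18N.Per.InFm g M R f} := by
    intro Y
    refine Set.ext fun f => ?_
    rw [Set.mem_inter_iff, hHi, hFi]
    exact ⟨fun a => ⟨a.1.1, a.2⟩, fun a => ⟨⟨a.1, a.2.ne⟩, a.2⟩⟩
  refine ⟨M, R, hM, fun f f' hf hcf => hR f f' hf ((cg_iff M f' f).1 hcf),
    fun f hf => (cg_iff n f f₀).2 (hcg f hf), fun f hf => ?_, c, hc, Y₀, fun Y => ?_⟩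
  · obtain ⟨h1, -, h2⟩ := hfam f ((hFi f).1 hf)
    refine ⟨adm_self F M f, h2.mono ?_, h1⟩
    rintro l ⟨hl, h3⟩
    refine ⟨hl, ?_⟩
    intro M' M'' _ _ _ _ _ _ _ _ x hx htop hadm
    exact (adm_iff F M'' M f).1 (h3 M' M'' x hx htop ((adm_iff F M' M f).2 hadm))
  · obtain ⟨hfin, h⟩ := h Y
    have hsub : UpTo F g Y ⊆ {f : (𝓞 F)[X] | Pool.Agent.H18G.HtR g Y f} := fun f hf =>
      ((hHi Y f).1 hf).1
    refine ⟨hfin.subset hsub, fun hY => ?_⟩
    obtain ⟨h1, h2, h3⟩ := h hY
    rw [hset Y]
    refine ⟨h1, ?_, fun k => ?_⟩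
    · refine le_trans (mul_le_mul_of_nonneg_left ?_ hc.le) h2
      exact_mod_cast Set.ncard_le_ncard hsub hfin
    · have h4 := h3 k
      have hA : {f : (𝓞 F)[X] | Pool.Agent.H18G.HtR g Y f ∧ Pool.Agent.H18N.Per.InFm g M R f}.Finite :=
        hfin.subset fun f hf => hf.1
      have hcover : {f : (𝓞 F)[X] | Pool.Agent.H18G.HtR g Y f ∧
          Pool.Agent.H18N.Per.InFm g M R f} ⊆
          {f ∈ {f : (𝓞 F)[X] | Pool.Agent.H18G.HtR g Y f ∧ Pool.Agent.H18N.Per.InFm g M R f} |
            Bounded M k f} ∪
          {f : (𝓞 F)[X] | Pool.Agent.H18G.HtR g Y f ∧ Pool.Agent.H18N.Per.InFm g M R f ∧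
            ¬ Pool.Agent.H18N.Per.BdA F M k f} := by
        intro f hf
        by_cases hB : Pool.Agent.H18N.Per.BdA F M k f
        · exact Or.inl ⟨hf, bounded_of hf.2.mon hf.2.deg hB⟩
        · exact Or.inr ⟨hf.1, hf.2, hB⟩
      have h5 := (Set.ncard_le_ncard hcover ((hA.subset fun f hf => hf.1).union
        (hfin.subset fun f hf => hf.1))).trans (Set.ncard_union_le _ _)
      have h6 : ({f : (𝓞 F)[X] | Pool.Agent.H18G.HtR g Y f ∧
          Pool.Agent.H18N.Per.InFm g M R f}.ncard : ℝ) ≤
          ({f ∈ {f : (𝓞 F)[X] | Pool.Agent.H18G.HtR g Y f ∧ Pool.Agent.H18N.Per.InFm g M R f} |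
            Bounded M k f}.ncard : ℝ) +
          ({f : (𝓞 F)[X] | Pool.Agent.H18G.HtR g Y f ∧ Pool.Agent.H18N.Per.InFm g M R f ∧
            ¬ Pool.Agent.H18N.Per.BdA F M k f}.ncard : ℝ) := by exact_mod_cast h5
      have h7 : ∑ j ∈ Finset.range (k + 1), poonenRains j =
          ∑ j ∈ Finset.range (k + 1), Pool.Agent.H68K.PR.pr2 j := rfl
      rw [h7]
      linarith

end Pool.Agent.Results.MP_8cb858_nt.NearEveryCurve
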