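import Pool.Agent.H18N.Tw
import Pool.Agent.H18N.All
import Pool.Agent.H18N.CLSX
import Pool.Agent.H18G.SELJ

/-!
# Near every elliptic curve, and near every hyperelliptic curve with a rational Weierstrass point at
infinity, over every number field: for nearly all curves the random quadratic twists obey the bounds of
Poonen and Rains given the parity, up to `ε`, over infinitely many fields at once

Let `F` be a number field and `g ≥ 1`. We consider the curves `C_f : y² = f(x)` of genus `g` over `F`, `f`
monic of degree `2 g + 1` with coefficients `a_j` in `𝓞 F` and `a_{2 g} = 0`, ordered by the height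
`max_{σ, j} |σ a_j|^{1 / (2 g + 1 - j)}`. For `g = 1` these are the elliptic curves `y² = x³ + a x + b`
over `F`. `Sel2 f K` is the `2`-Selmer group of the Jacobian `J` of `C_f` over an extension `K` of `F`: the
set of the classes of the continuous cocycles of the absolute Galois group of `K` with values in `J[2]`,
modulo the coboundaries of the elements of `J[2]`, which are trivial in `H¹(K_v, J)` for all places `v` of
`K`. For `g = 1` this is the `2`-Selmer group of the elliptic curve.

The constants of Poonen and Rains are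
`C_{2,k} = ∏_{j ≥ 0} (1 + 2^{-j})^{-1} ∏_{1 ≤ i ≤ k} 2 / (2^i - 1)`. Given the parity of the dimension, the
probabilities are `2 C_{2,k}`.

**Theorem.** Let `n ≥ 1` and let `f₀` be the equation of any curve as above, which is minimal at the primes
dividing `n` (the reduction of the curve at these primes, also at the primes over `2`, is arbitrary), and
let `ε > 0`. There is an `m₀` such that for all `m ≥ m₀` there are a finite set `S` of at least `m` rational
primes and a family of equations `f`, given by congruences modulo some `M` and by the condition that the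
discriminant is not divisible by the square of a prime which does not divide `M`, with the following
properties. The family has positive lower density among all equations. All its members `f` and all their
quadratic twists `f_J` by the numbers `∏_{q ∈ J} q`, `J ⊆ S`, are minimal and congruent to `f₀` modulo `n`.
If `Y` is large, then for all but at most a proportion `ε` of the members `f` of height at most `Y` there is
a parity `t` such that for `m₀ ≤ i ≤ m` and for all `k` the proportion of the sets `J` of `i` elements of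
`S`, for which `dim Sel2 f_J M' ≤ k [M' : F]` for ALL admissible extensions `M'` of `F` at once, is at least
the probability `∑_{j ≤ k, j = t + i mod 2} 2 C_{2,j}`, up to `ε`. Here `M' / F` is admissible if it is
Galois of 2-power degree, the primes dividing `M` and the real places split completely in `M'`, and `f` is
irreducible modulo the primes of `F` which are ramified in `M'`; this does not depend on the twist. `F`
itself is admissible, and there are infinitely many prime numbers `l` such that `M'(√l)` is admissible for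
every admissible `M'`.

So for nearly all members `f` of the family about `2 C_{2,0} = 0.4194...` of the twists by the products of
`i` primes of `S` have `Sel2 f_J M' = 0` for all admissible `M'`, for all `i` of one parity, and about
`2 C_{2,1} = 0.8388...` of them have `dim Sel2 f_J M' ≤ [M' : F]` for all admissible `M'`, for all `i` of the
other parity; `S` does not depend on the curve. `RandomTwistLaw` is the exact law over `F` for elliptic
curves in certain special residue classes; here the class is arbitrary, the genus is arbitrary, the bounds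
hold over all admissible fields at once, but they are bounds from one side.

Idea of the proof. Here `f` runs through an arbitrary residue class modulo a multiple `W` of `n`, near a
polynomial `f₁` which is near `f₀` at the primes dividing `n`, with a prescribed factorization modulo the
primes over the primes `q ∈ S`, which are congruent to one modulo `W`, so that the twisting factor is a
square at all the places over `W`, and with squarefree discriminant outside `W`. The Selmer groups of the
twists embed into the intersections `Λ_J` of one maximal isotropic subspace `Λ` of an orthogonal sum of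
hyperbolic planes over the field with two elements, one for each `q ∈ S`, with a product of lines which
depends on `J ⊆ S`. If `q ∉ J` is added to `J`, the dimension goes down by one if `Λ_J` has an element which
is not trivial at `q`, and goes up by one otherwise. A count of pairs of symmetric matrices over `𝓞 F`, after
Bhargava and Gross, shows that for most `f` all the nonzero elements of `Λ_J`, `J` small, are trivial at
about half of the primes of `S`. So the dimensions for the random twists form approximately a Markov chain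
which goes from `k` to `k + 1` with probability `2^{-k}` and to `k - 1` with probability `1 - 2^{-k}`. It
converges to the law of Poonen and Rains, given the parity. As the primes dividing `M` and the real places
split completely in an admissible field `M'`, the group over `M'` is bounded by the one over `F`.

Built on project PF of the starting library (helper783 and the seats named there), on project PR, on the
projects JG and JN of helper18, and on the work of helpers 7, 10, 14, 19, 33, 36, 41, 42, 43, 45, 48, 54,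
57, 59, 64, 67, 68, 69, 71, 72, 76, 83, 87, 92, 93, 94, 99 and 18. The definitions and the comparison of the
Selmer groups are taken from `NearEveryCurve` of helper68.
-/

set_option autoImplicit false

namespace Pool.Agent.Results.MP_8cb858_nt.TwistLawNearEveryCurve

open NumberField IsDedekindDomain Polynomial
open Pool.Agent.N874.Jac (J mapJ Cochain Cocycle TrivialAtPrimes TrivialAtReals)
open scoped Classical IntermediateField Pointwise

/-! ### The curves -/

section curves

variable {F : Type} [Field F] [NumberField F] (g : ℕ)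

/-- The discriminant of the polynomial `f` of degree `2 g + 1`, up to sign: the resultant of `f` and its
derivative. -/
noncomputable def disc (f : (𝓞 F)[X]) : 𝓞 F := f.resultant (derivative f) (2 * g + 1) (2 * g)

/-- The equations `y² = f(x)`: `f` is monic of degree `2 g + 1` with integral coefficients `a_j`,
`a_{2 g} = 0`, and its discriminant is not zero. -/
def Curves (F : Type) [Field F] [NumberField F] (g : ℕ) : Set (𝓞 F)[X] :=
  {f | f.Monic ∧ f.natDegree = 2 * g + 1 ∧ f.coeff (2 * g) = 0 ∧ disc g f ≠ 0}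

/-- The equations of height at most `Y`: all the conjugates of the coefficient `a_j` are at most
`Y ^ (2 g + 1 - j)` in absolute value. -/
def UpTo (F : Type) [Field F] [NumberField F] (g : ℕ) (Y : ℝ) : Set (𝓞 F)[X] :=
  {f ∈ Curves F g | ∀ j ≤ 2 * g, ∀ σ : F →+* ℂ,
    ‖σ ((f.coeff j : 𝓞 F) : F)‖ ≤ Y ^ (2 * g + 1 - j)}

/-- The coefficients of `f` and `f'` are congruent modulo `n`. -/
def Congruent (n : ℕ) (f f' : (𝓞 F)[X]) : Prop := ∀ j, (n : 𝓞 F) ∣ f.coeff j - f'.coeff j

/-- The equation `y² = f(x)` is not minimal at `𝔭`: the coefficient `a_j` is divisible by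
`𝔭 ^ (2 (2 g + 1 - j))`, for all `j`. -/
def NotMinimalAt (𝔭 : Ideal (𝓞 F)) (f : (𝓞 F)[X]) : Prop :=
  ∀ j ≤ 2 * g, f.coeff j ∈ 𝔭 ^ (2 * (2 * g + 1 - j))

/-- `R` is a union of residue classes modulo `M`. -/
def Periodic (M : ℕ) (R : Set (𝓞 F)[X]) : Prop := ∀ f f', f ∈ R → Congruent M f' f → f' ∈ R

/-- The family given by `M` and `R`: the equations in `R` whose discriminant is not divisible by the
square of a prime which does not divide `M`. -/
def Family (M : ℕ) (R : Set (𝓞 F)[X]) : Set (𝓞 F)[X] :=
  {f ∈ Curves F g | f ∈ R ∧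
    ∀ v : HeightOneSpectrum (𝓞 F), (M : 𝓞 F) ∉ v.asIdeal → disc g f ∉ v.asIdeal ^ 2}

end curves

/-! ### The admissible fields -/

section admissible

variable (F M' : Type) [Field F] [NumberField F] [Field M'] [NumberField M'] [Algebra F M']

/-- The extension `M'` of `F` is admissible for `M` and `f`: it is Galois of 2-power degree, the
decomposition groups of the primes dividing `M` are trivial, every embedding of `F` in `ℝ` extends to
`M'`, and `f` is irreducible modulo the primes of `F` below the primes of `M'` with nontrivial inertia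
group. -/
structure Admissible (M : ℕ) (f : (𝓞 F)[X]) : Prop where
  galois : IsGalois F M'
  degree : ∃ n : ℕ, Module.finrank F M' = 2 ^ n
  split : ∀ w : HeightOneSpectrum (𝓞 M'), (M : 𝓞 M') ∈ w.asIdeal →
    MulAction.stabilizer Gal(M'/F) w.asIdeal = ⊥
  real : ∀ σ : F →+* ℝ, ∃ ρ : M' →+* ℝ, ρ.comp (algebraMap F M') = σ
  ramified : ∀ w : HeightOneSpectrum (𝓞 M'), w.asIdeal.inertia Gal(M'/F) ≠ ⊥ →
    Irreducible (f.map (Ideal.Quotient.mk (w.under (𝓞 F)).asIdeal))

/-- The prime numbers `l` such that `M'(√l)` is admissible for every admissible field `M'`. -/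
def Steps (M : ℕ) (f : (𝓞 F)[X]) : Set ℕ := {l : ℕ | l.Prime ∧
  ∀ (M' M'' : Type) [Field M'] [NumberField M'] [Field M''] [NumberField M''] [Algebra F M']
    [Algebra M' M''] [Algebra F M''] [IsScalarTower F M' M''] (x : M''),
    x ^ 2 = (l : M'') → M'⟮x⟯ = ⊤ → Admissible F M' M f → Admissible F M'' M f}

end admissible

/-! ### The Selmer groups -/

section selmer

variable {K : Type} [Field K] [NumberField K]

/-- The Selmer cocycles: the continuous cocycles of the absolute Galois group of `K` with values in the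
elements of order two of `J(K^sep)`, where `J` is the Jacobian of `y² = f(x)`, which are trivial in
`H¹(K_v, J)` for all finite and all real places `v` of `K` (at complex places the condition is empty).
The group `J(L)` is the Picard group of `L[x, y] / (y² - f(x))`, written multiplicatively. -/
structure IsSelmer (f : K[X]) (c : Cochain f) : Prop where
  cocycle : Cocycle c
  two : ∀ σ, c σ ^ 2 = 1
  finite : TrivialAtPrimes (𝓞 K) c
  real : TrivialAtReals c

/-- The quotient of `c` and `c'` is the coboundary of an element of order two. -/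
def Cohomologous (f : K[X]) (c c' : Cochain f) : Prop :=
  ∃ R : J f (SeparableClosure K), R ^ 2 = 1 ∧ ∀ σ, c σ / c' σ = mapJ f σ.toAlgHom R / R

/-- The `2`-Selmer group of the Jacobian of `y² = f(x)`, the kernel of `H¹(K, J[2]) → ∏_v H¹(K_v, J)`: the
Selmer cocycles modulo the coboundaries of the elements of order two. -/
def Sel2 (f : K[X]) : Type :=
  Quot fun c c' : {c : Cochain f // IsSelmer f c} => Cohomologous f c.1 c'.1

end selmer

/-- The polynomial `f` over the extension `M'` of `F`. -/
noncomputable def polyOver {F : Type} [Field F] [NumberField F] (f : (𝓞 F)[X]) (M' : Type) [Field M']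
    [NumberField M'] [Algebra F M'] : M'[X] :=
  (f.map (algebraMap (𝓞 F) (𝓞 M'))).map (algebraMap (𝓞 M') M')

/-- The quadratic twist of the curve `y² = f(x)` by `D = ∏_{q ∈ J} q`: the curve `y² = D^{2 g + 1} f(x / D)`;
the coefficient `a_j` of `f` is multiplied by `D^{2 g + 1 - j}`. -/
noncomputable def twist {F : Type} [Field F] [NumberField F] (J : Finset ℕ) (f : (𝓞 F)[X]) : (𝓞 F)[X] :=
  f.scaleRoots ((∏ q ∈ J, q : ℕ) : 𝓞 F)

/-- For every admissible extension `M'` of `F` the twist of `f` by `∏_{q ∈ J} q` is irreducible over `M'`,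
and the `2`-Selmer group of its Jacobian over `M'` has at most `2 ^ (k [M' : F])` elements. -/
def Bounded {F : Type} [Field F] [NumberField F] (M k : ℕ) (f : (𝓞 F)[X]) (J : Finset ℕ) : Prop :=
  ∀ (M' : Type) [Field M'] [NumberField M'] [Algebra F M'], Admissible F M' M f →
    Irreducible (polyOver (twist J f) M') ∧ Finite (Sel2 (polyOver (twist J f) M')) ∧
      Nat.card (Sel2 (polyOver (twist J f) M')) ≤ 2 ^ (k * Module.finrank F M')

/-- The constant `C_{2,k}` of Poonen and Rains. -/
noncomputable def poonenRains (k : ℕ) : ℝ :=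
  (∏' j : ℕ, (1 + (2 : ℝ)⁻¹ ^ j)⁻¹) * ∏ i ∈ Finset.range k, (2 / ((2 : ℝ) ^ (i + 1) - 1))

/-- The law of Poonen and Rains given the parity: `2 C_{2,k}` if `k` has the parity of `s`, and `0`
otherwise. -/
noncomputable def parityLaw (s k : ℕ) : ℝ := if Even (s + k) then 2 * poonenRains k else 0

/-- The `2`-Selmer groups of the twists of `f` by the products of `i` primes in `S`, `m₀ ≤ i ≤ m`, obey the
bounds of Poonen and Rains given the parity, up to `ε`, for all `k`, over all admissible fields at once. -/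
def TwistLaw {F : Type} [Field F] [NumberField F] (M : ℕ) (S : Finset ℕ) (m₀ m : ℕ) (ε : ℝ)
    (f : (𝓞 F)[X]) : Prop :=
  ∃ t : ℕ, ∀ i, m₀ ≤ i → i ≤ m → ∀ k : ℕ,
    (∑ j ∈ Finset.range (k + 1), parityLaw (t + i) j - ε) * (S.card.choose i : ℝ) ≤
      (((S.powersetCard i).filter fun J => Bounded M k f J).card : ℝ)

/-! ### Comparison -/

theorem cg_iff {F : Type} [Field F] [NumberField F] (n : ℕ) (f f' : (𝓞 F)[X]) :
    Congruent n f f' ↔ Pool.Agent.N783.PF.Cg (Pool.Agent.N783.PF.sp F n) f f' :=
  forall_congr' fun _ => Ideal.mem_span_singleton.symm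

theorem adm_iff (F M' : Type) [Field F] [NumberField F] [Field M'] [NumberField M'] [Algebra F M']
    (M : ℕ) (f : (𝓞 F)[X]) : Pool.Agent.H18N.AdmW F M' M f ↔ Admissible F M' M f :=
  ⟨fun h => ⟨h.galois, h.deg, h.split, h.real, h.ram⟩,
    fun h => ⟨h.galois, h.degree, h.split, h.real, h.ramified⟩⟩

theorem adm_self (F : Type) [Field F] [NumberField F] (M : ℕ) (f : (𝓞 F)[X]) :
    Admissible F F M f := by
  have hs : Subsingleton Gal(F/F) := ⟨fun a b => by
    ext x
    have h1 := a.commutes x
    have h2 := b.commutes x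
    exact h1.trans h2.symm⟩
  refine ⟨inferInstance, ⟨0, by rw [Module.finrank_self, pow_zero]⟩, fun w _ => ?_,
    fun σ => ⟨σ, by ext x; rfl⟩, fun w hw => absurd ?_ hw⟩
  · exact Subsingleton.elim _ _
  · exact Subsingleton.elim _ _

theorem card_le {K : Type} [Field K] [NumberField K] (f : (𝓞 K)[X]) (hm : f.Monic)
    (ho : Odd f.natDegree) (hirr : Irreducible (f.map (algebraMap (𝓞 K) K))) (n : ℕ)
    (h : Pool.Agent.H18G.SelLe n f) : Finite (Sel2 (f.map (algebraMap (𝓞 K) K))) ∧
      Nat.card (Sel2 (f.map (algebraMap (𝓞 K) K))) ≤ n := by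
  have key : ∀ φ : Fin (n + 1) → Sel2 (f.map (algebraMap (𝓞 K) K)), ¬ Function.Injective φ := by
    intro φ hφ
    obtain ⟨i, j, hij, hR⟩ := Pool.Agent.H18G.SELJ.t K f hm ho hirr n h
      (fun i => (Quot.out (φ i)).1) (fun i => ⟨(Quot.out (φ i)).2.cocycle, (Quot.out (φ i)).2.two,
        (Quot.out (φ i)).2.finite, (Quot.out (φ i)).2.real⟩)
    apply hij
    apply hφ
    rw [← Quot.out_eq (φ i), ← Quot.out_eq (φ j)]
    exact Quot.sound hR
  have hfin : Finite (Sel2 (f.map (algebraMap (𝓞 K) K))) := by
    by_contra hinf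
    have : Infinite (Sel2 (f.map (algebraMap (𝓞 K) K))) := not_finite_iff_infinite.1 hinf
    exact key (fun i => Infinite.natEmbedding _ i.1)
      fun a b hab => Fin.ext ((Infinite.natEmbedding _).injective hab)
  refine ⟨hfin, ?_⟩
  by_contra hlt
  have e := (Finite.equivFin (Sel2 (f.map (algebraMap (𝓞 K) K)))).symm
  exact key (fun i => e (Fin.castLE (by omega) i))
    fun a b hab => Fin.castLE_injective _ (e.injective hab)

theorem adm_twist {F : Type} [Field F] [NumberField F] {M : ℕ} {f : (𝓞 F)[X]} (hm : f.Monic)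
    {J : Finset ℕ} (hJ : ∀ q ∈ J, q ∣ M) (M' : Type) [Field M'] [NumberField M'] [Algebra F M']
    (h : Admissible F M' M f) : Admissible F M' M (twist J f) := by
  refine ⟨h.galois, h.degree, h.split, h.real, fun w hw => ?_⟩
  have h1 := h.ramified w hw
  haveI hmax : (w.under (𝓞 F)).asIdeal.IsMaximal := (w.under (𝓞 F)).isMaximal
  letI : Field (𝓞 F ⧸ (w.under (𝓞 F)).asIdeal) := Ideal.Quotient.field _
  have hnot : ∀ q ∈ J, ((q : ℕ) : 𝓞 F) ∉ (w.under (𝓞 F)).asIdeal := by
    intro q hq hmem
    have h2 : ((q : ℕ) : 𝓞 M') ∈ w.asIdeal := by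
      have h3 : ((q : ℕ) : 𝓞 F) ∈ w.asIdeal.comap (algebraMap (𝓞 F) (𝓞 M')) := hmem
      rw [Ideal.mem_comap, map_natCast] at h3
      exact h3
    obtain ⟨e, he⟩ := hJ q hq
    have h4 : (M : 𝓞 M') ∈ w.asIdeal := by
      rw [he, Nat.cast_mul]
      exact Ideal.mul_mem_right _ _ h2
    have h5 := h.split w h4
    apply hw
    have h6 : w.asIdeal.inertia Gal(M'/F) ≤ MulAction.stabilizer Gal(M'/F) w.asIdeal :=
      Ideal.inertia_le_stabilizer _
    rw [h5] at h6
    exact le_bot_iff.1 h6
  have hD : (Ideal.Quotient.mk (w.under (𝓞 F)).asIdeal) ((∏ q ∈ J, q : ℕ) : 𝓞 F) ≠ 0 := by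
    intro h0
    rw [Ideal.Quotient.eq_zero_iff_mem, Nat.cast_prod] at h0
    obtain ⟨q, hq, hq'⟩ := (Ideal.IsPrime.prod_mem_iff).1 h0
    exact hnot q hq hq'
  rw [twist, map_scaleRoots]
  · exact Pool.Agent.N170.PF.irr_scale hD h1
  · rw [hm.leadingCoeff, map_one]
    exact one_ne_zero

theorem bounded_of {F : Type} [Field F] [NumberField F] {g M k : ℕ} {f : (𝓞 F)[X]} (hm : f.Monic)
    (hd : f.natDegree = 2 * g + 1) {J : Finset ℕ} (hJ : ∀ q ∈ J, q ∣ M)
    (h : Pool.Agent.H18N.Per.BdA F M k (twist J f)) : Bounded M k f J := by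
  intro M' _ _ _ hM'
  obtain ⟨h1, h2⟩ := h M' ((adm_iff F M' M (twist J f)).2 (adm_twist hm hJ M' hM'))
  have hmD : (twist J f).Monic := (monic_scaleRoots_iff _).2 hm
  have hdD : (twist J f).natDegree = 2 * g + 1 := by rw [twist, natDegree_scaleRoots, hd]
  have h3 := card_le ((twist J f).map (algebraMap (𝓞 F) (𝓞 M'))) (hmD.map _)
    (by rw [hmD.natDegree_map, hdD]; exact ⟨g, rfl⟩) h1 _ h2
  exact ⟨h1, h3⟩

theorem law_of {F : Type} [Field F] [NumberField F] {g M : ℕ} {S : Finset ℕ} {m₀ m : ℕ} {ε : ℝ}
    {f : (𝓞 F)[X]} (hm : f.Monic) (hd : f.natDegree = 2 * g + 1) (hS : ∀ q ∈ S, q ∣ M)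
    (h : Pool.Agent.H18N.Per.Qn F M S m₀ m ε f) : TwistLaw M S m₀ m ε f := by
  obtain ⟨t, ht⟩ := h
  refine ⟨t, fun i h1 h2 k => (ht i h1 h2 k).trans ?_⟩
  have hsub : ((S.powersetCard i).filter fun J => Pool.Agent.H18N.Per.BdA F M k
      (Pool.Agent.H18G.twf J f)) ⊆ ((S.powersetCard i).filter fun J => Bounded M k f J) := by
    intro J hJ
    rw [Finset.mem_filter] at hJ ⊢
    refine ⟨hJ.1, bounded_of hm hd (fun q hq => hS q ?_) hJ.2⟩
    exact (Finset.mem_powersetCard.1 hJ.1).1 hq
  exact_mod_cast Finset.card_le_card hsub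

/-- Near every curve over every number field, in all genera, the `2`-Selmer groups of the random twists of
nearly all curves obey the bounds of Poonen and Rains given the parity, up to `ε`, over all admissible
fields at once. -/
theorem result (F : Type) [Field F] [NumberField F] (g n : ℕ) (hg : 1 ≤ g) (hn : 0 < n)
    (f₀ : (𝓞 F)[X]) (hf₀ : f₀ ∈ Curves F g)
    (hmin : ∀ 𝔭 : Ideal (𝓞 F), 𝔭.IsPrime → (n : 𝓞 F) ∈ 𝔭 → ¬ NotMinimalAt g 𝔭 f₀)
    (ε : ℝ) (hε : 0 < ε) :
    ∃ m₀ : ℕ, ∀ m ≥ m₀, ∃ (S : Finset ℕ) (M : ℕ) (R : Set (𝓞 F)[X]),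
      m ≤ S.card ∧ 0 < M ∧ (∀ q ∈ S, q.Prime ∧ q ∣ M) ∧ Periodic M R ∧
      (∀ f ∈ Family g M R, Admissible F F M f ∧ (Steps F M f).Infinite ∧
        ∀ J ⊆ S, Congruent n (twist J f) f₀ ∧
          ∀ 𝔭 : Ideal (𝓞 F), 𝔭.IsPrime → 𝔭 ≠ ⊥ → ¬ NotMinimalAt g 𝔭 (twist J f)) ∧
      ∃ c : ℝ, 0 < c ∧ ∃ Y₀ : ℝ, ∀ Y : ℝ, (UpTo F g Y).Finite ∧ (Y₀ ≤ Y →
        0 < (UpTo F g Y ∩ Family g M R).ncard ∧
        c * ((UpTo F g Y).ncard : ℝ) ≤ ((UpTo F g Y ∩ Family g M R).ncard : ℝ) ∧
        ({f ∈ UpTo F g Y ∩ Family g M R | ¬ TwistLaw M S m₀ m ε f}.ncard : ℝ) ≤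
          ε * ((UpTo F g Y ∩ Family g M R).ncard : ℝ)) := by
  obtain ⟨hm, hd, ht, -⟩ := hf₀
  obtain ⟨m₀, h⟩ := Pool.Agent.H18N.Per.quench Pool.Agent.H18N.a_BALW Pool.Agent.H18N.EXVW.t
    Pool.Agent.H18N.REGW.t Pool.Agent.H18N.CLSX.t Pool.Agent.H18N.admw Pool.Agent.H18N.stepw
    Pool.Agent.H10PR.eul g F hg n hn f₀ hm hd ht hmin ε hε
  refine ⟨m₀, fun m hmm => ?_⟩
  obtain ⟨M, R, S, hM, hR, hcg, hmS, hS, hfam, c, Y₀, hc, h⟩ := h m hmm
  have hFi : ∀ f, f ∈ Family g M R ↔ Pool.Agent.H18N.Per.InFm g M R f := fun f =>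
    ⟨fun ⟨⟨a1, a2, a3, a4⟩, a5, a6⟩ => ⟨a1, a2, a3, a5, a4, a6⟩,
      fun a => ⟨⟨a.mon, a.deg, a.tr, a.ne⟩, a.mem, a.sqf⟩⟩
  have hHi : ∀ Y f, f ∈ UpTo F g Y ↔ Pool.Agent.H18G.HtR g Y f ∧ disc g f ≠ 0 := fun Y f =>
    ⟨fun ⟨⟨a1, a2, a3, a4⟩, a5⟩ => ⟨⟨a1, a2, a3, a5⟩, a4⟩,
      fun ⟨a, b⟩ => ⟨⟨a.mon, a.deg, a.tr, b⟩, a.ht⟩⟩
  have hset : ∀ Y, UpTo F g Y ∩ Family g M R =
      {f : (𝓞 F)[X] | Pool.Agent.H18G.HtR g Y f ∧ Pool.Agent.H18N.Per.InFm g M R f} := by
    intro Y
    refine Set.ext fun f => ?_
    rw [Set.mem_inter_iff, hHi, hFi]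
    exact ⟨fun a => ⟨a.1.1, a.2⟩, fun a => ⟨⟨a.1, a.2.ne⟩, a.2⟩⟩
  refine ⟨S, M, R, hmS, hM, hS, fun f f' hf hcf => hR f f' hf ((cg_iff M f' f).1 hcf),
    fun f hf => ⟨adm_self F M f, ?_, fun J hJ => ?_⟩, c, hc, Y₀, fun Y => ?_⟩
  · obtain ⟨-, -, -, h2⟩ := hfam f ((hFi f).1 hf) ∅ (Finset.empty_subset _)
    have e : Pool.Agent.H18G.twf ∅ f = f := by
      show f.scaleRoots (((∏ q ∈ (∅ : Finset ℕ), q : ℕ) : ℕ) : 𝓞 F) = f
      rw [Finset.prod_empty, Nat.cast_one, scaleRoots_one]
    rw [e] at h2
    refine h2.mono ?_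
    rintro l ⟨hl, h3⟩
    refine ⟨hl, ?_⟩
    intro M' M'' _ _ _ _ _ _ _ _ x hx htop hadm
    exact (adm_iff F M'' M f).1 (h3 M' M'' x hx htop ((adm_iff F M' M f).2 hadm))
  · obtain ⟨h1, h2, -, -⟩ := hfam f ((hFi f).1 hf) J hJ
    exact ⟨(cg_iff n _ f₀).2 h1, h2⟩
  · obtain ⟨hfin, h⟩ := h Y
    have hsub : UpTo F g Y ⊆ {f : (𝓞 F)[X] | Pool.Agent.H18G.HtR g Y f} := fun f hf =>
      ((hHi Y f).1 hf).1
    refine ⟨hfin.subset hsub, fun hY => ?_⟩
    obtain ⟨h1, h2, h3⟩ := h hY
    rw [hset Y]
    refine ⟨h1, ?_, le_trans ?_ h3⟩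
    · refine le_trans (mul_le_mul_of_nonneg_left ?_ hc.le) h2
      exact_mod_cast Set.ncard_le_ncard hsub hfin
    · have hsub2 : {f ∈ {f : (𝓞 F)[X] | Pool.Agent.H18G.HtR g Y f ∧
          Pool.Agent.H18N.Per.InFm g M R f} | ¬ TwistLaw M S m₀ m ε f} ⊆
          {f : (𝓞 F)[X] | Pool.Agent.H18G.HtR g Y f ∧ Pool.Agent.H18N.Per.InFm g M R f ∧
            ¬ Pool.Agent.H18N.Per.Qn F M S m₀ m ε f} := by
        rintro f ⟨⟨a1, a2⟩, a3⟩
        exact ⟨a1, a2, fun a4 => a3 (law_of a2.mon a2.deg (fun q hq => (hS q hq).2) a4)⟩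
      exact_mod_cast Set.ncard_le_ncard hsub2 (hfin.subset fun f hf => hf.1)

end Pool.Agent.Results.MP_8cb858_nt.TwistLawNearEveryCurve
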