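import Pool.Agent.H20S3.FIN
import Pool.Agent.H20S3.REC
import Pool.Agent.H20S3.LA
import Pool.Agent.H20S3.AWB
import Pool.Agent.H20S3.MK
import Pool.Agent.H20S3.SOL
import Pool.Agent.H20S3.MULT
import Pool.Agent.H20S3.AVG
import Pool.Agent.H20S3.SUM1
import Pool.Agent.H20S3.SUM2
import Pool.Agent.H20S3.LAPE
import Pool.Agent.H20S3.MAIN

/-!
# Mod `3` Selmer groups over `K = ℚ(ω)`: every curve `E_D : y² + D y = x³`, twisted by random primes

`K` is the field of the third roots of unity and `D = 1` modulo `3` is ANY cube-free element of `𝓞 K`.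
`Sel3 D` is the `3`-Selmer group of `E_D` over `K`, and `SelRoot D` the Selmer group of the endomorphism
`√-3`, of order `3^(r+1)`, `r = r(D)`. For exponents `e₁, …, e_k ∈ {1, 2}` the curve is twisted by the primary
primes `π₁, …, π_k`: `D' = D π₁^e₁ ⋯ π_k^e_k`; means are taken over all `π_k` of norm at most `X_k → ∞`, then
over all `π_{k-1}` of norm at most `X_{k-1} → ∞`, …, at last over `π₁`.

* The `D'` of norm not `1` modulo `9` have the proportion `2/3`, and the law of `r(D')` among them is known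
  exactly: for `k = 1` it is the law of the dimension of the kernel of `Lap(D) - diag(u)`, `u` a uniformly
  distributed vector over `F₃` and `Lap(D)` the Laplacian of the cubic residue symbols between the prime
  factors of `D`; every further prime is one step of the Markov chain `s → s - 1, s, s + 1` with the
  probabilities `1 - 3^(-s)`, `2 · 3^(-s-1)`, `3^(-s-1)`.
* For EVERY `D` and every choice of the exponents this law converges, as `k → ∞`, to
  `prob r = ∏_{i ≥ 0} (1 - 3^{-(2 i + 1)}) / ((3 - 1) (9 - 1) ⋯ (3^r - 1))`, with the explicit error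
  `(3/4) (3/5)^(k - 1 - n)`, `n` the number of the primes that divide `D`; the mean of `3^r` is
  `2 + (A - 2) 3^(1-k)`, `A` the mean for `k = 1`.
* The proportion of the `D'` with `#Sel3 D' = 3`, the smallest possible order, among them is that of
  `r(D') = 0`; it converges to `prob 0 = 0.639...` for every `D`.

The starting file `ThreeSelmerCubicTwists` (helper419 and others) has the limit law when `D` runs over all
cube-free elements ordered by the norm; here the base curve is fixed (a set of twists of density zero) and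
arbitrary, for instance of large rank, and the law for every finite number of primes is exact.
-/

set_option autoImplicit false

open scoped Classical

namespace Pool.Agent.Results.MP_8cb858_nt.TwistsByRandomPrimes

open NumberField WeierstrassCurve Filter Topology
open Pool.Agent.TH841.SH.D (Pt act Gal Coch)
open Pool.Agent.TH841.NF.D (IsShaCoc)

variable {K : Type} [Field K] [NumberField K]

/-- The curve `E_D : y² + D y = x³`. -/
def curve {K : Type} [Field K] (D : K) : WeierstrassCurve K := ⟨0, 0, D, 0, 0⟩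

/-- The group of the continuous cocycles of the absolute Galois group of `K` with values in `E_D[3]`
that are coboundaries in `E_D` at all the places of `K`. -/
def Cocycles (D : K) : AddSubgroup (Coch (curve D)) where
  carrier := {f | IsShaCoc (curve D) f ∧ ∀ σ, 3 • f σ = 0}
  zero_mem' := (Pool.Agent.R419.KL.coc3 D).zero_mem'
  add_mem' := (Pool.Agent.R419.KL.coc3 D).add_mem'
  neg_mem' := (Pool.Agent.R419.KL.coc3 D).neg_mem'

/-- The group of the coboundaries of the points of `E_D[3]`. -/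
def Coboundaries (D : K) : AddSubgroup (Coch (curve D)) where
  carrier := {f | ∃ P : Pt (curve D) (AlgebraicClosure K), 3 • P = 0 ∧
    ∀ σ : Gal K, f σ = act (curve D) σ.toAlgHom P - P}
  zero_mem' := (Pool.Agent.R419.KL.cob3 D).zero_mem'
  add_mem' := (Pool.Agent.R419.KL.cob3 D).add_mem'
  neg_mem' := (Pool.Agent.R419.KL.cob3 D).neg_mem'

/-- The `3`-Selmer group of `E_D` over `K`: the kernel of `H¹(K, E_D[3]) → ∏ H¹(K_v, E_D)`. -/
def Sel3 (D : K) : Type := Cocycles D ⧸ (Coboundaries D).addSubgroupOf (Cocycles D)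

/-- The Selmer group of the endomorphism `√-3`: the continuous cocycles with values in its kernel
`{0, (0, 0), (0, -D)}` that are coboundaries in `E_D` at all the places of `K`. -/
def SelRoot (D : K) : Set (Coch (curve D)) :=
  {f | IsShaCoc (curve D) f ∧ ∀ σ, f σ = 0 ∨ ∃ y h, f σ = Affine.Point.some 0 y h}

/-- The rank of `E_D(K)` over `ℤ`. -/
noncomputable def rank (D : K) : ℕ := Module.finrank ℤ (curve D).toAffine.Point

/-- The number `r` such that `SelRoot D` has order `3 ^ (r + 1)`. -/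
noncomputable def r (D : 𝓞 K) : ℕ := Nat.log 3 (SelRoot (D : K)).ncard - 1

/-- `p` is a prime that is `1` modulo `3`: one generator of every prime ideal except the one above `3`. -/
def Primary (p : 𝓞 K) : Prop := Prime p ∧ (3 : 𝓞 K) ∣ p - 1

/-- `D` is `1` modulo `3` and not divisible by the cube of a non-unit. -/
def PrimaryCubeFree (D : 𝓞 K) : Prop := (3 : 𝓞 K) ∣ D - 1 ∧ ∀ x : 𝓞 K, x ^ 3 ∣ D → IsUnit x

/-- The norm of `D` is not `1` modulo `9`. -/
def Class (D : 𝓞 K) : Prop := ¬ (9 : ℤ) ∣ Algebra.norm ℤ D - 1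

/-- The iterated mean of `G` at `D π₁^e₁ ⋯ π_k^e_k`, for the exponents `[e₁, …, e_k]`: it is `G D` for
`k = 0`, and for `k ≥ 1` the limit for `X → ∞` of the mean, over all primary primes `π` of norm at most `X`,
of the iterated mean `g π` for `D π^e₁` and `[e₂, …, e_k]` (`g` is arbitrary at the finitely many
`π ∣ D`). -/
def IteratedMean (G : 𝓞 K → ℝ) : List ℕ → 𝓞 K → ℝ → Prop
  | [], D, m => m = G D
  | e :: es, D, m => ∃ g : 𝓞 K → ℝ,
      (∀ π, Primary π → ¬ π ∣ D → IteratedMean G es (D * π ^ e) (g π)) ∧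
      Tendsto (fun X : ℕ => (∑ᶠ π ∈ {π : 𝓞 K | Primary π ∧ Algebra.norm ℤ π ≤ X}, g π) /
        ({π : 𝓞 K | Primary π ∧ Algebra.norm ℤ π ≤ X}.ncard : ℝ)) atTop (𝓝 m)

/-- The cubic residue symbol of `x` modulo `p`, in additive notation: the `c` with
`x ^ ((N p - 1) / 3) = ω ^ c` modulo `p`, and `0` if there is none. -/
noncomputable def symbol (ω p x : 𝓞 K) : ZMod 3 :=
  if h : ∃ c : ZMod 3, p ∣ x ^ (((Algebra.norm ℤ p).natAbs - 1) / 3) - ω ^ c.val then h.choose else 0

/-- The set of the primary primes that divide `D` (it is finite for `D ≠ 0`). -/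
noncomputable def divs (D : 𝓞 K) : Finset (𝓞 K) :=
  if h : {p : 𝓞 K | Primary p ∧ p ∣ D}.Finite then h.toFinset else ∅

/-- The Laplacian of the cubic residue symbols between the primary prime factors of `D`: outside the
diagonal the entry `(p, q)` is `v_q(D)` times the symbol of `q` modulo `p`, and all row sums are zero. -/
noncomputable def lap (ω D : 𝓞 K) : Matrix (divs D) (divs D) (ZMod 3) :=
  Matrix.of fun p q => if (p : 𝓞 K) = q then
    - ∑ s ∈ (divs D).erase p, ((multiplicity s D : ℕ) : ZMod 3) * symbol ω p s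
    else ((multiplicity (q : 𝓞 K) D : ℕ) : ZMod 3) * symbol ω p q

/-- The dimension of the kernel. -/
noncomputable def corank {ι : Type} [Fintype ι] (M : Matrix ι ι (ZMod 3)) : ℕ :=
  Module.finrank (ZMod 3) (LinearMap.ker M.mulVecLin)

/-- One step of the Markov chain: the mean of `f` at `s - 1`, `s`, `s + 1` with the weights
`1 - 3^(-s)`, `2 · 3^(-s-1)`, `3^(-s-1)`. -/
noncomputable def step (f : ℕ → ℝ) (s : ℕ) : ℝ :=
  (1 - (1 / 3 : ℝ) ^ s) * f (s - 1) + 2 * (1 / 3 : ℝ) ^ (s + 1) * f s +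
    (1 / 3 : ℝ) ^ (s + 1) * f (s + 1)

/-- The mean of `f` for the law after `k ≥ 1` primes: start with the law of the dimension of the kernel
of `lap D - diag u`, `u` uniformly distributed, and make `k - 1` steps. -/
noncomputable def law (ω D : 𝓞 K) (k : ℕ) (f : ℕ → ℝ) : ℝ :=
  (∑ u : divs D → ZMod 3, (step^[k - 1] f) (corank (lap ω D - Matrix.diagonal u))) /
    3 ^ (divs D).card

/-- The indicator function of `s`. -/
def ind (s : ℕ) (n : ℕ) : ℝ := if n = s then 1 else 0

/-- `∏_{i ≥ 0} (1 - 3^{-(2 i + 1)}) / ((3 - 1) (9 - 1) ⋯ (3 ^ s - 1))`. -/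
noncomputable def prob (s : ℕ) : ℝ :=
  (∏' i : ℕ, (1 - (1 / 3 : ℝ) ^ (2 * i + 1))) / ∏ i ∈ Finset.range s, ((3 : ℝ) ^ (i + 1) - 1)

omit [NumberField K] in
theorem im_iff (G : 𝓞 K → ℝ) (es : List ℕ) (D : 𝓞 K) (m : ℝ) :
    Pool.Agent.H20S3.IMK G es D m ↔ IteratedMean G es D m := by
  induction es generalizing D m with
  | nil => exact Iff.rfl
  | cons e es ih =>
    unfold Pool.Agent.H20S3.IMK IteratedMean
    refine exists_congr fun g => and_congr ?_ Iff.rfl
    exact forall_congr' fun π => forall_congr' fun _ => forall_congr' fun _ => ih _ _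

/-- **Cubic twists of every curve `E_D` by random primes.** -/
theorem result (K : Type) [Field K] [NumberField K] [IsCyclotomicExtension {3} ℚ K] (ω : 𝓞 K)
    (hω : ω ^ 2 + ω + 1 = 0) :
    -- the exact law, for every base curve and every number of primes
    (∀ D : 𝓞 K, PrimaryCubeFree D → ∀ es : List ℕ, es ≠ [] → (∀ e ∈ es, e = 1 ∨ e = 2) →
      (∀ f : ℕ → ℝ, IteratedMean (fun D' => if Class D' then f (r D') else 0) es D
        (2 / 3 * law ω D es.length f)) ∧
      IteratedMean (fun D' => if Class D' ∧ Nat.card (Sel3 (D' : K)) = 3 then 1 else 0) es D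
        (2 / 3 * law ω D es.length (ind 0))) ∧
    -- exponential convergence to the same law for every base curve
    (∀ D : 𝓞 K, PrimaryCubeFree D → ∀ k : ℕ, 1 ≤ k → ∀ s : ℕ, |law ω D k (ind s) - prob s| ≤
      3 / 4 * (3 / 5 : ℝ) ^ (k - 1) * (5 / 3) ^ (divs D).card) ∧
    -- the mean of `3 ^ r`
    (∀ D : 𝓞 K, PrimaryCubeFree D → ∀ k : ℕ, 1 ≤ k →
      law ω D k (fun n => (3 : ℝ) ^ n) =
        2 + (law ω D 1 (fun n => (3 : ℝ) ^ n) - 2) / 3 ^ (k - 1) ∧
      law ω D 1 (fun n => (3 : ℝ) ^ n) ≤ (5 / 3) ^ (divs D).card) ∧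
    -- the groups
    (∀ D : 𝓞 K, PrimaryCubeFree D → Class D → ∃ s : ℕ, (SelRoot (D : K)).ncard = 3 ^ (r D + 1) ∧
      Nat.card (Sel3 (D : K)) = 3 ^ (s + 1) ∧ r D ≤ s ∧ s ≤ 2 * r D ∧ rank (D : K) ≤ 2 * r D) ∧
    ((∀ s, 0 < prob s) ∧ 0.639 < prob 0 ∧ prob 0 < 0.6391 ∧ HasSum prob 1) := by
  have hLA := Pool.Agent.H20S3.LA.t
  have hREC := Pool.Agent.H20S3.REC.t hLA
  have hS := Pool.Agent.H20S3.SOL.t
  have hL := Pool.Agent.H20S3.LAPE.t
  have hA := Pool.Agent.H20S3.AWB.t
  have hM := Pool.Agent.H20S3.MAIN.t Pool.Agent.H20S3.MULT.t Pool.Agent.H20S3.AVG.t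
    Pool.Agent.H20S3.SUM1.t (Pool.Agent.H20S3.SUM2.t hREC)
  refine ⟨fun D hD es hes he => ⟨fun f => ?_, ?_⟩, fun D hD k hk s => ?_, fun D hD k hk => ?_,
    fun D hD h9 => ?_, Pool.Agent.R419.KL.prob_facts⟩
  · have e : (fun D' : 𝓞 K => if Class D' then f (r D') else 0) = fun D' : 𝓞 K =>
        if ¬ (9 : ℤ) ∣ Algebra.norm ℤ D' - 1 then f (Pool.Agent.H20S3.rk D') else 0 :=
      funext fun D' => if_congr Iff.rfl rfl rfl
    rw [e]
    exact (im_iff _ _ _ _).1 (Pool.Agent.H20S3.fin1 hω hM hL hS D hD es hes he f)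
  · have e : (fun D' : 𝓞 K => if Class D' ∧ Nat.card (Sel3 (D' : K)) = 3 then (1 : ℝ) else 0) =
        fun D' : 𝓞 K => if ¬ (9 : ℤ) ∣ Algebra.norm ℤ D' - 1 ∧
          Nat.card (Pool.Agent.R419.KL.Sel3 (D' : K)) = 3 then 1 else 0 :=
      funext fun D' => if_congr Iff.rfl rfl rfl
    rw [e]
    exact (im_iff _ _ _ _).1 (Pool.Agent.H20S3.fin2 hω hM hL hS D hD es hes he)
  · exact Pool.Agent.H20S3.fin3 hω hL Pool.Agent.H20S3.MK.t hA D hD s (k - 1)
  · exact Pool.Agent.H20S3.oneK_pow hω hL hA D hD (k - 1)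
  · have hω' : (ω : K) ^ 2 + (ω : K) + 1 = 0 := by
      have := congrArg (fun z : 𝓞 K => (z : K)) hω
      simpa using this
    obtain ⟨t, s, h1, h2, h3, h4, h5⟩ :=
      (Pool.Agent.R419.KL.finalSel3 K (ω : K) hω').1 D ⟨hD.1, hD.2, h9⟩
    have hr : r D = t := by
      have h6 : (SelRoot (D : K)).ncard = 3 ^ (t + 1) := h1
      unfold r
      rw [h6, Nat.log_pow (by norm_num), Nat.add_sub_cancel]
    rw [hr]
    exact ⟨s, h1, h2, h3, h4, h5⟩

end Pool.Agent.Results.MP_8cb858_nt.TwistsByRandomPrimes
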